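import Pool.Agent.Helper28.TL.StV

set_option autoImplicit false

namespace Pool.Agent.Helper8.TLV

open Pool.Agent.Helper14.CV Pool.Agent.Helper28.WK Pool.Agent.Helper28.LV
open Pool.Agent.Helper28.TL Pool.Agent.Helper4.TL

private theorem nc_congr {R : Type} [AddCommGroup R] (a : ℕ) (c : ℤ) {G H : ℤ → ℤ → R}
    (h : EqC G H) : EqC (Nc a c G) (Nc a c H) := by
  obtain ⟨k, hk⟩ := h
  refine ⟨∑ j ∈ Finset.range (a + 2), ((-1 : ℤ) ^ j * ((a + 1).choose j : ℤ)) • k,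
    fun x y hxy => ?_⟩
  unfold Nc
  rw [← Finset.sum_add_distrib]
  refine Finset.sum_congr rfl fun j _ => ?_
  rw [hk, smul_add]
  by_cases hx : x = 0
  · right
    subst hx
    rcases hxy with h | h
    · exact absurd rfl h
    · simpa using h
  · exact Or.inl hx

private theorem nc_add {R : Type} [AddCommGroup R] (a : ℕ) (c : ℤ) (G H : ℤ → ℤ → R) :
    Nc a c (G + H) = Nc a c G + Nc a c H := by
  funext x y
  simp only [Nc, Pi.add_apply, smul_add, Finset.sum_add_distrib]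

private theorem nc_smul {R : Type} [AddCommGroup R] (a : ℕ) (c k : ℤ) (G : ℤ → ℤ → R) :
    Nc a c (k • G) = k • Nc a c G := by
  funext x y
  simp only [Nc, Pi.smul_apply, Finset.smul_sum]
  refine Finset.sum_congr rfl fun j _ => ?_
  rw [smul_comm]

/-- A potential with constant reductions is constant. -/
private theorem const_of_red {p : ℕ} [Fact p.Prime] (ψ : ℤ → ℤ → ℤ_[p])
    (h : ∀ M : ℕ, 3 ≤ M → EqC (redP M ψ) 0) : EqC ψ 0 := by
  refine ⟨ψ 1 0, fun x y hxy => ?_⟩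
  simp only [Pi.zero_apply, zero_add]
  have key : ∀ M : ℕ, 3 ≤ M → PadicInt.toZModPow M (ψ x y - ψ 1 0) = 0 := by
    intro M hM
    obtain ⟨k, hk⟩ := h M hM
    have h1 := hk x y hxy
    have h2 := hk 1 0 (Or.inl one_ne_zero)
    simp only [redP, Pi.zero_apply, zero_add] at h1 h2
    rw [map_sub, h1, h2, sub_self]
  by_contra hne
  have hne' : ψ x y - ψ 1 0 ≠ 0 := sub_ne_zero.2 hne
  have h3 := key ((ψ x y - ψ 1 0).valuation + 3) (by omega)
  have h4 : ψ x y - ψ 1 0 ∈ Ideal.span {(p : ℤ_[p]) ^ ((ψ x y - ψ 1 0).valuation + 3)} := by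
    rw [← PadicInt.ker_toZModPow, RingHom.mem_ker]
    exact h3
  rw [PadicInt.mem_span_pow_iff_le_valuation _ hne'] at h4
  omega

private theorem eps_S {p α β γ' δ : ℤ} (hp : ¬ (2 : ℤ) ∣ p) (hd : α * δ - β * (p * γ') = 1) :
    eps (-(p * γ')) (-δ) α β = -eps α (p * β) γ' δ := by
  have hS : eps 0 (-1) 1 0 = -1 := by decide
  have h1 := eps_mul (a := 0) (b := -1) (c := 1) (d := 0) (a' := α) (b' := β) (c' := p * γ')
    (d' := δ) (by decide) (by rw [hd]; decide)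
  have e1 : (0 : ℤ) * α + -1 * (p * γ') = -(p * γ') := by ring
  have e2 : (0 : ℤ) * β + -1 * δ = -δ := by ring
  have e3 : (1 : ℤ) * α + 0 * (p * γ') = α := by ring
  have e4 : (1 : ℤ) * β + 0 * δ = β := by ring
  rw [e1, e2, e3, e4, hS] at h1
  have h : ∀ x : ℤ, (2 : ℤ) ∣ p * x - x := by
    intro x
    have e : p * x - x = (p - 1) * x := by ring
    rw [e]
    exact Dvd.dvd.mul_right (by omega) x
  have h2 : eps α β (p * γ') δ = eps α (p * β) γ' δ := by
    apply eps_mod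
    · rw [sub_self]; exact dvd_zero _
    · have := h β
      have e : β - p * β = -(p * β - β) := by ring
      rw [e]; exact (dvd_neg).2 this
    · exact h γ'
    · rw [sub_self]; exact dvd_zero _
  rw [h1, h2]; ring

theorem hF0 : VF0 := by
  intro hMS hRgT hRgU hUI p hp κ a G ψ hp2 hκ hψ hlev hu hNcG hNb hNcu hS
  have := hp
  have hp0 : (p : ℤ) ≠ 0 := by exact_mod_cast hp.out.ne_zero
  have hpQ : (p : ℚ_[p]) ≠ 0 := by exact_mod_cast hp.out.ne_zero
  have hodd : ¬ 2 ∣ p := by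
    intro h
    exact hp2 ((Nat.prime_dvd_prime_iff_eq Nat.prime_two hp.out).1 h).symm
  have hoddZ : ¬ (2 : ℤ) ∣ (p : ℤ) := by
    intro h
    exact hodd (by exact_mod_cast h)
  -- the constant of `hu`
  obtain ⟨k, hk⟩ := id hu
  have hk' : ∀ x y : ℤ, (x ≠ 0 ∨ y ≠ 0) → ψ (p * x) y = ψ x y + κ • G x y + k := by
    intro x y hxy
    have := hk x y hxy
    simp only [act, Pi.sub_apply, Pi.smul_apply, zero_mul, add_zero, zero_add, one_mul] at this
    rw [sub_eq_iff_eq_add] at this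
    rw [this]; abel
  -- `Nc` kills `ψ`
  have hNc : ∀ c : ℤ, 2 ∣ c → EqC (Nc a c ψ) 0 := by
    intro c hc
    have h1 := nc_congr a c hu
    have h2 : Nc a c (act p 0 0 1 ψ - ψ) = Nc a c (act p 0 0 1 ψ) + -(Nc a c ψ) := by
      rw [sub_eq_add_neg, nc_add]
      congr 1
      have := nc_smul a c (-1) ψ
      rwa [neg_one_smul, neg_one_smul] at this
    rw [h2, nc_smul] at h1
    have h3 : EqC (κ • Nc a c G) 0 := by
      have := (hNcG c hc).smul κ
      rwa [smul_zero] at this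
    have h4 := (h1.trans h3).sub (hNcu c hc)
    have h5 : Nc a c (act p 0 0 1 ψ) + -(Nc a c ψ) - Nc a c (act p 0 0 1 ψ) = -(Nc a c ψ) := by
      abel
    rw [h5, sub_zero] at h4
    have h6 := h4.neg
    rwa [neg_neg, neg_zero] at h6
  obtain ⟨F, hF⟩ := hMS p hp a ψ hp2 hψ (fun M hM => ⟨(hlev M hM).1, fun α β γ δ hd hb hc =>
    (hlev M hM).2 α β γ δ hd hb ((pow_dvd_pow (p : ℤ) (by omega)).trans hc)⟩) hNb hNc
  -- (R)
  have hR : ∀ v1 v2 w1 w2 : ℤ, (v1 ≠ 0 ∨ v2 ≠ 0) → (w1 ≠ 0 ∨ w2 ≠ 0) →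
      ∀ α β γ δ : ℚ_[p], F (p * v1) v2 (p * w1) w2 α (p * β) ((p : ℚ_[p])⁻¹ * γ) δ =
        -F v1 v2 w1 w2 (-γ) (-δ) α β := by
    intro v1 v2 w1 w2 hv hw
    have hpv : (p : ℤ) * v1 ≠ 0 ∨ v2 ≠ 0 := by
      rcases hv with h | h
      · exact Or.inl (mul_ne_zero hp0 h)
      · exact Or.inr h
    have hpw : (p : ℤ) * w1 ≠ 0 ∨ w2 ≠ 0 := by
      rcases hw with h | h
      · exact Or.inl (mul_ne_zero hp0 h)
      · exact Or.inr h
    obtain ⟨hA, hA'⟩ := hF (p * v1) v2 (p * w1) w2 hpv hpw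
    obtain ⟨hB, hB'⟩ := hF v1 v2 w1 w2 hv hw
    have r1 := (hRgT p hp a _ hA).2.1 (p : ℚ_[p]) (p : ℚ_[p])⁻¹
    have r2 := (hRgT p hp a _ hB).2.2.1
    have r3 := (hRgT p hp a _ r1).2.2.2.1 _ 1 1 r2
    have h0 := hRgU p hp a 1 _ r3 (by
      intro α β γ δ hd _ _ hγ _
      obtain ⟨γ', rfl⟩ := hγ
      rw [pow_one] at hd ⊢
      have e1 := hA' α (p * β) γ' δ (by linear_combination hd)
      have e2 := hB' (-(p * γ')) (-δ) α β (by linear_combination hd)
      rw [eps_S hoddZ hd] at e2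
      have e3 : (p : ℚ_[p])⁻¹ * (((p : ℤ) * γ' : ℤ) : ℚ_[p]) = (γ' : ℚ_[p]) := by
        push_cast
        field_simp
      have nz1 : α * w1 + β * w2 ≠ 0 ∨ (p * γ') * w1 + δ * w2 ≠ 0 :=
        ne_zero_of_det (by rw [hd]; exact one_ne_zero) hw
      have nz2 : α * v1 + β * v2 ≠ 0 ∨ (p * γ') * v1 + δ * v2 ≠ 0 :=
        ne_zero_of_det (by rw [hd]; exact one_ne_zero) hv
      have e4 := hS.diff nz1 nz2
      simp only [act] at e4
      have e5 : ψ (α * (p * w1) + p * β * w2) (γ' * (p * w1) + δ * w2) -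
          ψ (α * (p * v1) + p * β * v2) (γ' * (p * v1) + δ * v2) =
          ψ (-(p * γ') * w1 + -δ * w2) (α * w1 + β * w2) -
          ψ (-(p * γ') * v1 + -δ * v2) (α * v1 + β * v2) := by
        have t1 : ψ (α * (p * w1) + p * β * w2) (γ' * (p * w1) + δ * w2) =
            ψ (p * (α * w1 + β * w2) + 0 * (p * γ' * w1 + δ * w2))
              (0 * (α * w1 + β * w2) + 1 * (p * γ' * w1 + δ * w2)) := by
          congr 1 <;> ring
        have t2 : ψ (α * (p * v1) + p * β * v2) (γ' * (p * v1) + δ * v2) =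
            ψ (p * (α * v1 + β * v2) + 0 * (p * γ' * v1 + δ * v2))
              (0 * (α * v1 + β * v2) + 1 * (p * γ' * v1 + δ * v2)) := by
          congr 1 <;> ring
        have t3 : ψ (-(p * γ') * w1 + -δ * w2) (α * w1 + β * w2) =
            ψ (0 * (α * w1 + β * w2) + -1 * (p * γ' * w1 + δ * w2))
              (1 * (α * w1 + β * w2) + 0 * (p * γ' * w1 + δ * w2)) := by
          congr 1 <;> ring
        have t4 : ψ (-(p * γ') * v1 + -δ * v2) (α * v1 + β * v2) =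
            ψ (0 * (α * v1 + β * v2) + -1 * (p * γ' * v1 + δ * v2))
              (1 * (α * v1 + β * v2) + 0 * (p * γ' * v1 + δ * v2)) := by
          congr 1 <;> ring
        rw [t1, t2, t3, t4, e4]
      rw [e3, one_mul]
      have e6 : F (p * v1) v2 (p * w1) w2 (α : ℚ_[p]) ((p : ℚ_[p]) * (β : ℚ_[p])) (γ' : ℚ_[p])
          (δ : ℚ_[p]) = -F v1 v2 w1 w2 (-(((p : ℤ) * γ' : ℤ) : ℚ_[p])) (-(δ : ℚ_[p]))
            (α : ℚ_[p]) (β : ℚ_[p]) := by
        rw [e5] at e1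
        push_cast at e1 e2 ⊢
        rw [← e1, ← e2]
        ring
      rw [e6]
      ring)
    intro α β γ δ
    have := h0 α β γ δ
    linear_combination this
  -- `ψ` is invariant under the square of `u`
  have h2 : ∀ v1 v2 w1 w2 : ℤ, (v1 ≠ 0 ∨ v2 ≠ 0) → (w1 ≠ 0 ∨ w2 ≠ 0) →
      ψ (p * (p * w1)) w2 - ψ (p * (p * v1)) v2 = ψ w1 w2 - ψ v1 v2 := by
    intro v1 v2 w1 w2 hv hw
    have nz : ∀ x y : ℤ, (x ≠ 0 ∨ y ≠ 0) → ((p : ℤ) * x ≠ 0 ∨ y ≠ 0) := by
      intro x y h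
      rcases h with h | h
      · exact Or.inl (mul_ne_zero hp0 h)
      · exact Or.inr h
    have hv1 := nz _ _ hv
    have hw1 := nz _ _ hw
    have a1 := hR (p * v1) v2 (p * w1) w2 hv1 hw1 1 0 0 1
    have a2 := hR v1 v2 w1 w2 hv hw 0 (-(p : ℚ_[p])⁻¹) p 0
    have a3 := (hRgT p hp a _ (hF v1 v2 w1 w2 hv hw).1).2.2.2.2 (-(p : ℚ_[p]))
      (-(p : ℚ_[p])⁻¹) 1 0 0 1
    have b1 := (hF (p * (p * v1)) v2 (p * (p * w1)) w2 (nz _ _ hv1) (nz _ _ hw1)).2 1 0 0 1
      (by ring)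
    have b2 := (hF v1 v2 w1 w2 hv hw).2 1 0 0 1 (by ring)
    have c1 : (p : ℚ_[p]) * -(p : ℚ_[p])⁻¹ = -1 := by field_simp
    have c2 : (p : ℚ_[p])⁻¹ * (p : ℚ_[p]) = 1 := by field_simp
    have c3 : (-(p : ℚ_[p]) * -(p : ℚ_[p])⁻¹) ^ a = 1 := by
      rw [neg_mul_neg, mul_inv_cancel₀ hpQ, one_pow]
    rw [mul_zero, mul_zero, neg_zero] at a1
    rw [c1, c2, neg_zero] at a2
    rw [c3, one_mul, mul_one, mul_zero, mul_zero, mul_one] at a3
    have key : F (p * (p * v1)) v2 (p * (p * w1)) w2 1 0 0 1 = F v1 v2 w1 w2 1 0 0 1 := by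
      rw [a1, a2, a3, neg_neg]
    rw [eps_one] at b1 b2
    simp only [one_mul, zero_mul, add_zero, zero_add, Int.cast_one, Int.cast_zero] at b1 b2
    rw [← b1, ← b2] at key
    exact Subtype.ext key
  -- so the reductions of `3 ψ` are constant
  have h3 : EqC ((3 : ℤ) • ψ) 0 := by
    refine const_of_red _ fun M hM => ?_
    have hsym : SymE (p ^ 2) M M (redP M ψ) := by
      refine ⟨(hlev M hM).1, fun α β γ δ hd hb hc => (hlev M hM).2 α β γ δ hd ?_ ?_⟩
      · refine dvd_trans ?_ hb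
        push_cast
        rw [← pow_mul]
        exact pow_dvd_pow _ (by omega)
      · refine dvd_trans ?_ hc
        push_cast
        rw [← pow_mul]
        exact pow_dvd_pow _ (by omega)
    have h5 : redP M ((3 : ℤ) • ψ) = (3 : ℤ) • redP M ψ := by
      funext x y
      simp only [redP, Pi.smul_apply, map_zsmul]
    rw [h5]
    refine hUI (p ^ 2) ?_ ?_ (ZMod (p ^ M)) _ M M (redP M ψ) hsym ?_
    · have := hp.out.two_le
      nlinarith
    · intro h
      exact hodd (Nat.prime_two.dvd_of_dvd_pow h)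
    · refine ⟨redP M ψ (p * (p * 1)) 0 - redP M ψ 1 0, fun x y hxy => ?_⟩
      have := h2 1 0 x y (Or.inl one_ne_zero) hxy
      have h4 := congrArg (PadicInt.toZModPow M) this
      rw [map_sub, map_sub] at h4
      simp only [act, redP]
      have e1 : ψ (((p ^ 2 : ℕ) : ℤ) * x + 0 * y) (0 * x + 1 * y) = ψ (p * (p * x)) y := by
        congr 1
        · push_cast; ring
        · ring
      rw [e1]
      linear_combination h4
  -- conclusion
  obtain ⟨c, hc⟩ := h3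
  refine ⟨G 1 0, fun x y hxy => ?_⟩
  simp only [Pi.zero_apply, zero_add]
  have nz : (p : ℤ) * x ≠ 0 ∨ y ≠ 0 := by
    rcases hxy with h | h
    · exact Or.inl (mul_ne_zero hp0 h)
    · exact Or.inr h
  have hc' : ∀ x y : ℤ, (x ≠ 0 ∨ y ≠ 0) → (3 : ℤ_[p]) * ψ x y = c := by
    intro x y h
    have := hc x y h
    simp only [Pi.smul_apply, Pi.zero_apply, zero_add, zsmul_eq_mul] at this
    push_cast at this
    exact this
  have e1 := hk' x y hxy
  have e2 := hk' 1 0 (Or.inl one_ne_zero)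
  have f1 := hc' _ _ nz
  have f2 := hc' _ _ hxy
  have f3 := hc' (p * 1) 0 (Or.inl (by rw [mul_one]; exact hp0))
  have f4 := hc' 1 0 (Or.inl one_ne_zero)
  have e3 : ((3 * κ : ℤ) : ℤ_[p]) * (G x y - G 1 0) = 0 := by
    rw [zsmul_eq_mul] at e1 e2
    push_cast
    linear_combination f1 - f2 - f3 + f4 - 3 * e1 + 3 * e2
  rcases mul_eq_zero.1 e3 with h | h
  · exfalso
    have h7 : (3 * κ : ℤ) = 0 := by exact_mod_cast h
    omega
  · exact sub_eq_zero.1 h

end Pool.Agent.Helper8.TLV
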